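import Mathlib
import Pool.Agent.N658.SP.Oct
import Pool.Agent.N7.OCT.Nrm
import Pool.Agent.N619.OCT.C0
import Pool.Agent.N681.OCT.Inst
import Pool.Agent.N756.OCT.KOct
import Pool.Agent.N195.OCT.NoL1

namespace Pool.Agent.Results.MP_814c9d_an.NoL1Kappa

open Cardinal Pool.Agent.N658.SP.Oct

universe u

theorem bdd (κ : Cardinal.{u}) (hκ : ℵ₀ ≤ κ) :
    ∀ S : Set (Order.succ κ).ord.ToType, #S ≤ κ → ∃ a, ∀ b ∈ S, b < a := by
  intro S hS
  by_contra hcon
  push Not at hcon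
  have hunb : ∀ a : (Order.succ κ).ord.ToType, ∃ b ∈ S, a ≤ b := hcon
  have hreg : (Order.succ κ).IsRegular := Cardinal.isRegular_succ hκ
  have h1 : Order.cof (Order.succ κ).ord.ToType ≤ #S := Order.cof_le hunb
  rw [Ordinal.cof_toType, hreg.cof_ord] at h1
  exact absurd (h1.trans hS) (not_le.mpr (Order.lt_succ κ))

/-- For every infinite cardinal `κ` there is a `κ`-octahedral Banach space that contains no
isomorphic copy of `ℓ₁(Γ)` for any uncountable `Γ`. -/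
theorem result (κ : Cardinal.{u}) (hκ : ℵ₀ ≤ κ) :
    ∃ (X : Type u) (_ : NormedAddCommGroup X) (_ : NormedSpace ℝ X) (_ : CompleteSpace X),
      KOct κ X ∧ ∀ Γ : Type u, ℵ₀ < #Γ → ¬ ContainsL1 Γ X := by
  have h1 := Pool.Agent.N7.OCT.Nrm.stmNrm.{u}
  have h2 := Pool.Agent.N619.OCT.stmC0.{u}
  have h3 := Pool.Agent.N681.OCT.stmInst.{u} h1 (Order.succ κ).ord.ToType
  choose E i1 i2 i3 φ hφ using h3
  exact ⟨lp E 1, inferInstance, inferInstance, inferInstance,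
    Pool.Agent.N756.OCT.stmKOct.{u} h1 κ hκ (Order.succ κ).ord.ToType (bdd κ hκ) E φ hφ,
    Pool.Agent.N195.OCT.stmNoL1.{u} h1 h2 (Order.succ κ).ord.ToType E φ hφ⟩

end Pool.Agent.Results.MP_814c9d_an.NoL1Kappa
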