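import Mathlib
import Pool.Agent.Y693.RF.ThmB

/-!
# `L`-functions of elliptic curves over random quadratic (and other) number fields

Let `E` be an elliptic curve over an imaginary quadratic field `L`. If `E` is modular, then `L(E/L, s)` is an entire function (if `E` has no
complex multiplication by an order of `L`), and the Riemann hypothesis predicts that its partial Euler products converge for `Re s > 1`. We
consider the fields `L = ℚ(θ)`, where `θ` is a root of `f + t`, `f` a monic quadratic polynomial, and the curves `y² = x³ + P(θ) x + Q(θ)`; here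
`P` and `Q` are polynomials of degree at most `2`, not both constant. More generally `f` may be a monic polynomial of any degree `n` over the ring
of integers of a number field `F`, and `L = F(θ)`. We also allow twists by the restriction to `L` of a representation `V` of the Galois group of
`F` (given by the eigenvalues of the Frobenius elements).

For all but `X^(1 - c)` of the integers `|t| ≤ X`, for all these fields and for any `X^c` families `(P_k, Q_k, V_k)` at the same time:

* the partial Euler products over the primes of norm at most `x` and at most `y` of `L(E_k ⊗ V_k, s)` agree up to a factor `1 + O(y^(-c))` for all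
  `(log X)^(1/c) ≤ y ≤ x ≤ X^c` and all `s` with `Re s ≥ 1 + δ`, `|Im s| ≤ X^c`;
* up to the distance `A / log X` of the edge `Re s = 3/2` of the half-plane of absolute convergence `L(E_k ⊗ V_k, s)` agrees with these short
  partial products up to a factor between `1 - η` and `1 + η`. In particular `log L(E_k ⊗ V_k, s)` remains small (compared to `log X`) there: there
  is no influence of a pole or of a zero on the line `Re s = 3/2`.

The theorem is `Pool.Agent.Y693.RF.thmB` of the library.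
-/

set_option autoImplicit false

open NumberField IsDedekindDomain Polynomial

namespace Pool.Agent.Results.MP_87c685_nt.RandomQuadraticFields

section nf
variable {K : Type} [Field K] [NumberField K] {N : ℕ}

/-- The number of elements of the residue field of `v`. -/
noncomputable def norm (v : HeightOneSpectrum (𝓞 K)) : ℕ := Ideal.absNorm v.asIdeal

/-- The number of the solutions of `y² = x³ + a x + b` modulo `v`. -/
noncomputable def points (a b : 𝓞 K) (v : HeightOneSpectrum (𝓞 K)) : ℕ :=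
  Nat.card {P : (𝓞 K ⧸ v.asIdeal) × (𝓞 K ⧸ v.asIdeal) //
    P.2 ^ 2 = P.1 ^ 3 + Ideal.Quotient.mk v.asIdeal a * P.1 + Ideal.Quotient.mk v.asIdeal b}

/-- The prime `v` does not divide `6 (4 a³ + 27 b²)`. -/
def IsGood (a b : 𝓞 K) (v : HeightOneSpectrum (𝓞 K)) : Prop := 6 * (4 * a ^ 3 + 27 * b ^ 2) ∉ v.asIdeal

/-- The Euler factor at `v` of `L(E ⊗ V, s)`, where `E` is the curve `y² = x³ + a x + b` and the eigenvalues of the Frobenius element of `v` on `V`
are the `γ v j`: the product over `j` of `(1 - a_v γ q^(-s) + γ² q^(1 - 2s))⁻¹`, where `a_v = q - (number of solutions)` is the trace. -/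
noncomputable def factor (a b : 𝓞 K) (γ : HeightOneSpectrum (𝓞 K) → Fin N → ℂ) (s : ℂ)
    (v : HeightOneSpectrum (𝓞 K)) : ℂ :=
  ∏ j, (1 - ((norm v : ℂ) - points a b v) * γ v j * (norm v : ℂ) ^ (-s) + γ v j ^ 2 * (norm v : ℂ) ^ (1 - 2 * s))⁻¹

/-- The product of the Euler factors at the good primes of norm at most `x`. -/
noncomputable def partialProduct (a b : 𝓞 K) (γ : HeightOneSpectrum (𝓞 K) → Fin N → ℂ) (s : ℂ) (x : ℕ) : ℂ :=
  ∏ᶠ v ∈ {v : HeightOneSpectrum (𝓞 K) | IsGood a b v ∧ norm v ≤ x}, factor a b γ s v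

/-- `L(E ⊗ V, s)`, `Re s > 3/2`: the product of the Euler factors at all good primes. -/
noncomputable def LFunction (a b : 𝓞 K) (γ : HeightOneSpectrum (𝓞 K) → Fin N → ℂ) (s : ℂ) : ℂ :=
  ∏' v : {v : HeightOneSpectrum (𝓞 K) // IsGood a b v}, factor a b γ s v

/-- The partial products for `y ≤ x` are close to each other in the half-plane `Re s ≥ 1 + δ`, if `(log X)^(1/c) ≤ y ≤ x ≤ X^c`. -/
def Stable (δ c : ℝ) (X : ℕ) (a b : 𝓞 K) (γ : HeightOneSpectrum (𝓞 K) → Fin N → ℂ) : Prop :=
  ∀ s : ℂ, 1 + δ ≤ s.re → |s.im| ≤ (X : ℝ) ^ c → ∀ y x : ℕ, (Real.log X) ^ (1 / c) ≤ y → y ≤ x → (x : ℝ) ≤ (X : ℝ) ^ c →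
    ‖partialProduct a b γ s x / partialProduct a b γ s y - 1‖ ≤ (y : ℝ) ^ (-c)

/-- `L(E ⊗ V, s)` is close to the partial products for `y ≥ (log X)^(1/c)` up to the distance `A / log X` of the edge. -/
def NearEdge (η A c : ℝ) (X : ℕ) (a b : 𝓞 K) (γ : HeightOneSpectrum (𝓞 K) → Fin N → ℂ) : Prop :=
  ∀ s : ℂ, 3 / 2 + A / Real.log X ≤ s.re → |s.im| ≤ (X : ℝ) ^ c → ∀ y : ℕ, (Real.log X) ^ (1 / c) ≤ y →
    ‖LFunction a b γ s / partialProduct a b γ s y - 1‖ ≤ η

end nf

/-- The restriction of `V` from `F` to `L`: the eigenvalues at the prime `w` of `L` above `v` are the powers `γ ^ f(w|v)` of those at `v`, where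
`f(w|v)` is the residue degree. -/
noncomputable def restriction {F : Type} [Field F] [NumberField F] {N : ℕ} (L : Type) [Field L] [NumberField L] [Algebra F L]
    (γ : Ideal (𝓞 F) → Fin N → ℂ) (w : HeightOneSpectrum (𝓞 L)) (j : Fin N) : ℂ :=
  γ (w.asIdeal.comap (algebraMap (𝓞 F) (𝓞 L))) j ^
    Ideal.inertiaDeg' (w.asIdeal.comap (algebraMap (𝓞 F) (𝓞 L))) w.asIdeal

/-- `L = F(θ)` is an extension of `F` of degree `deg f`, and `θ` is a root of `f + t`. -/
def Generates {F : Type} [Field F] [NumberField F] {L : Type} [Field L] [NumberField L] [Algebra F L]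
    (f : Polynomial (𝓞 F)) (t : ℤ) (θ : 𝓞 L) : Prop :=
  aeval θ (f + C (t : 𝓞 F)) = 0 ∧ Module.finrank F L = f.natDegree ∧ Algebra.adjoin F {(θ : L)} = ⊤

/-- All conjugates of `x` have absolute value at most `R`. -/
def HeightLE {F : Type} [Field F] [NumberField F] (R : ℝ) (x : 𝓞 F) : Prop := ∀ σ : F →+* ℂ, ‖σ (x : F)‖ ≤ R

/-- The polynomials `P` and `Q` have degree at most `2`, one of them is not constant, and the conjugates of their coefficients are at most `R`. -/
def Admissible {F : Type} [Field F] [NumberField F] (R : ℝ) (P Q : Polynomial (𝓞 F)) : Prop :=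
  P.natDegree ≤ 2 ∧ Q.natDegree ≤ 2 ∧ 0 < P.natDegree + Q.natDegree ∧ ∀ i, HeightLE R (P.coeff i) ∧ HeightLE R (Q.coeff i)

theorem generates_iff {F : Type} [Field F] [NumberField F] {L : Type} [Field L] [NumberField L] [Algebra F L]
    {f : Polynomial (𝓞 F)} {t : ℤ} {θ : 𝓞 L} : Generates f t θ ↔ Pool.Agent.Y693.RF.Gen (f + C (t : 𝓞 F)) θ := by
  constructor
  · rintro ⟨h1, h2, h3⟩
    exact ⟨h1, by rw [natDegree_add_C]; exact h2, h3⟩
  · rintro ⟨h1, h2, h3⟩
    exact ⟨h1, by rw [natDegree_add_C] at h2; exact h2, h3⟩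

/-- **Elliptic curves over random number fields.** Let `d`, `n ≥ 1`, `N` be integers, `B` real and `δ > 0`. There is `c > 0` such that for
every `η > 0` there are `A` and `X₀` with the following property for all `X ≥ X₀`, all number fields `F` of degree `d` (for instance `ℚ`), all monic
polynomials `f` of degree `n` (for instance `2`) over `𝓞_F` and any `m ≤ X^c` families `(P_k, Q_k, V_k)`, the conjugates of all coefficients being at
most `exp((log X)^B)`. For all integers `|t| ≤ X` with at most `X^(1 - c)` exceptions, for all extensions `L = F(θ)` of degree `n` generated by a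
root `θ` of `f + t` and all `k`, the `L`-function of `y² = x³ + P_k(θ) x + Q_k(θ)` over `L`, twisted by `V_k`, is `Stable` and `NearEdge`. -/
theorem result (d n N : ℕ) (_ : 0 < n) (B δ : ℝ) (_ : 0 < δ) :
    ∃ c : ℝ, 0 < c ∧ ∀ η : ℝ, 0 < η → ∃ A : ℝ, ∃ X₀ : ℕ, ∀ X : ℕ, X₀ ≤ X →
      ∀ (F : Type) [Field F] [NumberField F], Module.finrank ℚ F = d →
      ∀ f : Polynomial (𝓞 F), f.Monic → f.natDegree = n → (∀ i, HeightLE (Real.exp ((Real.log X) ^ B)) (f.coeff i)) →
      ∀ m : ℕ, (m : ℝ) ≤ (X : ℝ) ^ c → ∀ (P Q : Fin m → Polynomial (𝓞 F)) (γ : Fin m → Ideal (𝓞 F) → Fin N → ℂ),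
        (∀ k, Admissible (Real.exp ((Real.log X) ^ B)) (P k) (Q k)) → (∀ k v j, ‖γ k v j‖ ≤ 1) →
        ({t : ℤ | |t| ≤ X ∧ ¬ ∀ (L : Type) [Field L] [NumberField L] [Algebra F L] (θ : 𝓞 L), Generates f t θ → ∀ k,
          Stable δ c X (aeval θ (P k)) (aeval θ (Q k)) (restriction L (γ k)) ∧
            NearEdge η A c X (aeval θ (P k)) (aeval θ (Q k)) (restriction L (γ k))}.ncard : ℝ) ≤ (X : ℝ) ^ (1 - c) := by
  rename_i hn hδ
  obtain ⟨c, hc0, hc⟩ := Pool.Agent.Y693.RF.thmB d n N hn B δ hδ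
  refine ⟨c, hc0, fun η hη => ?_⟩
  obtain ⟨A, X₀, h⟩ := hc η hη
  refine ⟨A, X₀, fun X hX F _ _ hF f hf hfn hcoef m hm P Q γ hPQ hγ => ?_⟩
  refine le_trans ?_ (h X hX F hF f hf hfn hcoef m hm P Q γ (fun k => ⟨(hPQ k).1, (hPQ k).2.1, (hPQ k).2.2.1⟩)
    (fun k i σ => ⟨((hPQ k).2.2.2 i).1 σ, ((hPQ k).2.2.2 i).2 σ⟩) hγ)
  have hfin : ∀ p : ℤ → Prop, {t : ℤ | |t| ≤ X ∧ p t}.Finite := fun p =>
    Set.Finite.subset (Set.finite_Icc (-(X : ℤ)) X) fun t ht => by
      have := abs_le.1 ht.1
      exact ⟨this.1, this.2⟩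
  refine Nat.cast_le.2 (Set.ncard_le_ncard ?_ (hfin _))
  rintro t ⟨h1, h2⟩
  exact ⟨h1, fun h3 => h2 fun L _ _ _ θ hθ k => h3 L θ (generates_iff.1 hθ) k⟩

end Pool.Agent.Results.MP_87c685_nt.RandomQuadraticFields
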