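import Pool.Agent.N48.NP.Defs
import Pool.Agent.N48.NP.Main

set_option autoImplicit false

/-!
# MP_8fed12_co: the convex hull of the Tverberg points can be smaller than the core

Counterexample with `d = 3`, `τ = 3`: the nine points `e₁, e₂, e₃, -(e₂+e₃), -(e₁+e₃), -(e₁+e₂),
(1,-1,-1), (-1,1,-1), (-1,-1,1)`. Each open halfspace `x_k > 0` contains only two of them, so all Tverberg
points have nonpositive coordinates, and `0` is in the core and not a Tverberg point.
-/

namespace Pool.Agent.Results.MP_8fed12_co.NinePoints

open Pool.Agent.N343.TC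

/-- There is a set `S` of `9 = (3 - 1)(3 + 1) + 1` points in the three-dimensional space such that the
convex hull of `D₃(S)` is a proper subset of the `2`-core of `S`. -/
theorem result : ∃ S : Set (Fin 3 → ℝ), S.Finite ∧ S.ncard = (3 - 1) * (3 + 1) + 1 ∧
    convexHull ℝ (tverbergPoints 3 S) ⊂ core (3 - 1) S := by
  refine ⟨S, Set.finite_range _, ncard_S, hull_subset_core (by norm_num) S, fun h => ?_⟩
  exact zero_notMem_hull (h zero_mem_core)

end Pool.Agent.Results.MP_8fed12_co.NinePoints
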