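import Pool.Agent.X250.RT.Fin

/-!
# Zero in the spectrum for Davis' reflection group trick, over all groups

Let `N` be a compact aspherical manifold with boundary (or any finite aspherical complex with a subcomplex `∂N`), with
fundamental group `π`, let `∂N` have a flag triangulation, and let `V` be the set of the vertices of the preimage of
`∂N` in the universal cover `Ñ`. The group `π` acts on the right-angled Coxeter group `W` of the `1`-skeleton of this
preimage, and `W ⋊ π` acts properly and cocompactly on the contractible manifold (complex) which is obtained from `Ñ`
by reflections. A torsion-free subgroup `Γ` of finite index of `W ⋊ π` is the fundamental group of the quotient `M`,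
a closed aspherical manifold (finite aspherical complex); for suitable `Γ` it retracts onto `N`. This is the
reflection group trick of Davis; it gives closed aspherical manifolds whose fundamental groups are as complicated as
those of finite aspherical complexes (not residually finite, with unsolvable word problem, ...), and for `π` arbitrary
nothing is known about the Novikov conjecture or about coarse embeddings of `Γ`.

Theorem. `H_i(M; C*_r(π_1(M))) ≠ 0` for some `i ≤ dim M`, for all `M` of this kind: the zero in the spectrum conjecture
holds for every manifold and every complex given by the reflection group trick. There is no condition on `π`, apart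
from a finite resolution, nor on the complex `∂N`.

The statement is purely algebraic. `G` is a locally finite graph on the set `V`, on which `π` acts with finitely many
orbits of vertices, such that no element of `π` except `1` maps a nonempty clique of `G` to itself (the cliques are
the simplices of the flag complex of `G`, the action on it is free). `Γ` is any subgroup of finite index of `W ⋊ π`.
Finite aspherical complexes `M` with fundamental group `Γ` enter through the cellular chain complexes of their
universal covers, which are finite free resolutions `X` of the trivial `ℤ[Γ]`-module `ℤ`
(`Pool.Agent.H919R4.ZS.FinRes`, as in the starting results of this page), `X.homology (toRed Γ) i` is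
`H_i(M; C*_r(Γ))`.

The theorem is `main'` of the library `Pool.Agent.X250.RT`, unused so far. Proof: the regular representation of
`W ⋊ π` is the member `x = 1/2` of a norm continuous family of representations (Hecke algebras) with traces for which
the idempotents `(1 - s) / 2` of the reflections `s` have trace `x`. If the homology vanishes, the Euler
characteristic with respect to these traces vanishes for `x` near `1/2`. It is a polynomial in `x` whose coefficient
at `x ^ n`, `n > 0`, is up to sign the number of the `π`-orbits of the cliques with `n` elements.
-/

set_option autoImplicit false

namespace Pool.Agent.Results.MP_9f173d_gt.ReflectionGroupTrick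

open Pool.Agent.W907.SG (W cox)
open Pool.Agent.H919R4.ZS (FinRes toRed)

/-- Let `π` be a group with a finite free resolution, acting on a nonempty locally finite graph `G` with finitely many
orbits of vertices and freely on the nonempty cliques. The group `π` acts on the right-angled Coxeter group `W G`, and
for every subgroup `Γ` of finite index of `W G ⋊ π` and every finite free resolution `X` of `ℤ` over `ℤ[Γ]` the homology
of `X` with coefficients in the reduced group `C*`-algebra of `Γ` does not vanish in some degree which is at most the
length of `X`. -/
theorem result (π : Type) [Group π] (Y : FinRes π) (V : Type) [Nonempty V] [MulAction π V] (G : SimpleGraph V)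
    (hadj : ∀ (g : π) (u v : V), G.Adj u v → G.Adj (g • u) (g • v))
    (hloc : ∀ v, (G.neighborSet v).Finite)
    (hfin : ∃ F : Finset V, ∀ v : V, ∃ g : π, ∃ u ∈ F, g • u = v)
    (hfree : ∀ (g : π) (T : Finset V), G.IsClique (T : Set V) → T.Nonempty → (∀ v ∈ T, g • v ∈ T) → g = 1) :
    ∃ φ : π →* MulAut (W G),
      (∀ (g : π) (v : V), φ g ((cox G).simple v) = (cox G).simple (g • v)) ∧
      ∀ (Γ : Subgroup (W G ⋊[φ] π)) [Γ.FiniteIndex] (X : FinRes Γ),
        ∃ i ≤ X.len, Nontrivial (X.homology (toRed Γ) i) := by
  obtain ⟨φ, hφ⟩ := Pool.Agent.X250.RT.exists_phi (G := G) (π := π) hadj
  refine ⟨φ, hφ, fun Γ _ X => ?_⟩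
  by_contra hcon
  push Not at hcon
  refine Pool.Agent.X250.RT.main' hadj hfree hfin hloc Y φ hφ Γ X fun i => ?_
  by_cases hi : i ≤ X.len
  · exact hcon i hi
  · have h1 : X.n i = 0 := X.n_eq_zero i (not_le.1 hi)
    have h2 : IsEmpty (Fin (X.n i)) := by
      rw [h1]
      infer_instance
    have h3 : Subsingleton (X.cyc (toRed Γ) i) := ⟨fun a b => Subtype.ext (funext fun j => h2.elim j)⟩
    refine ⟨fun a b => ?_⟩
    obtain ⟨a, rfl⟩ := Submodule.Quotient.mk_surjective _ a
    obtain ⟨b, rfl⟩ := Submodule.Quotient.mk_surjective _ b
    rw [h3.elim a b]

end Pool.Agent.Results.MP_9f173d_gt.ReflectionGroupTrick
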