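import Mathlib

/-!
# There is no perfect `s`-basis of size `m` when `s ≥ 2` and `m ≥ 2`
-/

set_option autoImplicit false

open Finset

namespace Pool.Agent.Results.MP_acd90d_co.NoPerfectBasis

/-- `[0,s]A`: all sums `∑_{a ∈ A} c_a a` with nonnegative integers `c_a` and `∑_{a ∈ A} c_a ≤ s`. -/
def bracket {G : Type*} [AddCommGroup G] (s : ℕ) (A : Finset G) : Set G :=
  {x | ∃ c : G → ℕ, ∑ a ∈ A, c a ≤ s ∧ ∑ a ∈ A, c a • a = x}

/-- `A` is a perfect `s`-basis of `G`: `[0,s]A = G` and `|G| = binom(|A| + s, s)`. -/
def IsPerfectBasis {G : Type*} [AddCommGroup G] (s : ℕ) (A : Finset G) : Prop :=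
  bracket s A = Set.univ ∧ Nat.card G = (A.card + s).choose s

section core

variable {α G : Type*} [Fintype α] [DecidableEq α] [AddCommGroup G]

/-- the value of a coefficient vector -/
noncomputable def psi (b : α → G) (f : α →₀ ℕ) : G := ∑ x, f x • b x

omit [DecidableEq α] in
lemma psi_add (b : α → G) (f g : α →₀ ℕ) : psi b (f + g) = psi b f + psi b g := by
  simp [psi, add_smul, sum_add_distrib]

omit [DecidableEq α] in
lemma psi_single (b : α → G) (x : α) : psi b (Finsupp.single x 1) = b x := by
  unfold psi
  rw [Finset.sum_eq_single x]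
  · simp
  · intro y _ hy
    simp [Finsupp.single_apply, hy.symm]
  · intro h
    exact absurd (mem_univ x) h

lemma mem_F {n : ℕ} {f : α →₀ ℕ} :
    f ∈ (univ : Finset α).finsuppAntidiag n ↔ ∑ x, f x = n := by
  simp [mem_finsuppAntidiag]

lemma sum_add_single {n : ℕ} {f : α →₀ ℕ} (h : ∑ x, f x = n) (y : α) :
    ∑ x, (f + Finsupp.single y 1 : α →₀ ℕ) x = n + 1 := by
  simp only [Finsupp.add_apply, sum_add_distrib, h]
  congr 1
  rw [Finset.sum_eq_single y]
  · simp
  · intro x _ hx
    simp [Finsupp.single_apply, hx.symm]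
  · intro h
    exact absurd (mem_univ y) h

lemma choose_ineq (r t : ℕ) : (r + t + 4).choose (t + 2) <
    (r + t + 2).choose t + (r + 3) * (r + t + 2).choose (t + 1) := by
  have h1 : (r + t + 4).choose (t + 2) = (r + t + 2).choose t + 2 * (r + t + 2).choose (t + 1) +
      (r + t + 2).choose (t + 2) := by
    have e1 := Nat.choose_succ_succ' (r + t + 3) (t + 1)
    have e2 := Nat.choose_succ_succ' (r + t + 2) t
    have e3 := Nat.choose_succ_succ' (r + t + 2) (t + 1)
    rw [show r + t + 4 = r + t + 3 + 1 by ring, show t + 2 = t + 1 + 1 by ring, e1,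
      show r + t + 3 = r + t + 2 + 1 by ring, e2, e3]
    ring
  have h2 := Nat.choose_succ_right_eq (r + t + 2) (t + 1)
  have h3 : r + t + 2 - (t + 1) = r + 1 := by omega
  rw [h3] at h2
  have h4 : 0 < (r + t + 2).choose (t + 1) := Nat.choose_pos (by omega)
  rw [h1]
  have h5 : (r + t + 2).choose (t + 2) < (r + 1) * (r + t + 2).choose (t + 1) := by
    have h6 : (r + t + 2).choose (t + 1 + 1) * 2 ≤ (r + t + 2).choose (t + 1 + 1) * (t + 1 + 1) :=
      Nat.mul_le_mul_left _ (by omega)
    have h7 : 0 < (r + 1) * (r + t + 2).choose (t + 1) := by positivity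
    rw [show t + 1 + 1 = t + 2 by ring] at h2 h6
    nlinarith
  nlinarith

theorem core (r t : ℕ) (hα : Fintype.card α = r + 3) (b : α → G)
    (hs : ∀ g : G, ∃ f : α →₀ ℕ, ∑ x, f x = t + 2 ∧ psi b f = g)
    (hc : Nat.card G = (r + t + 4).choose (t + 2)) : False := by
  classical
  have hpos : 0 < Nat.card G := by rw [hc]; exact Nat.choose_pos (by omega)
  have : Finite G := Nat.finite_of_card_ne_zero hpos.ne'
  have : Fintype G := Fintype.ofFinite G
  rw [Nat.card_eq_fintype_card] at hc
  have hinj : Set.InjOn (psi b) ((univ : Finset α).finsuppAntidiag (t + 2) : Set (α →₀ ℕ)) := by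
    apply Finset.injOn_of_surjOn_of_card_le (psi b) (t := (univ : Finset G))
    · intro x _
      simp
    · intro g _
      obtain ⟨f, hf, rfl⟩ := hs g
      exact ⟨f, mem_coe.2 (mem_F.2 hf), rfl⟩
    · rw [card_finsuppAntidiag_nat_eq_choose, card_univ, card_univ, hα, hc]
      apply le_of_eq
      congr 1
      omega
  have key : ∀ f g : α →₀ ℕ, ∑ x, f x = t + 2 → ∑ x, g x = t + 2 → psi b f = psi b g → f = g :=
    fun f g hf hg h => hinj (mem_coe.2 (mem_F.2 hf)) (mem_coe.2 (mem_F.2 hg)) h
  set P : Finset ((α →₀ ℕ) ⊕ (Σ _ : α, α →₀ ℕ)) :=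
    ((univ : Finset α).finsuppAntidiag t).disjSum
      ((univ : Finset α).sigma fun x => (univ.erase x).finsuppAntidiag (t + 1)) with hP
  have hcardP : P.card = (r + t + 2).choose t + (r + 3) * (r + t + 2).choose (t + 1) := by
    rw [hP, card_disjSum, card_sigma, card_finsuppAntidiag_nat_eq_choose, card_univ, hα]
    congr 1
    · congr 1
      omega
    · rw [Finset.sum_congr rfl (g := fun _ => (r + t + 2).choose (t + 1))]
      · rw [sum_const, card_univ, hα, smul_eq_mul]
      · intro x _
        rw [card_finsuppAntidiag_nat_eq_choose, card_erase_of_mem (mem_univ x), card_univ, hα]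
        congr 1
        omega
  have hle : P.card ≤ Fintype.card G := by
    rw [← card_univ]
    apply Finset.card_le_card_of_injOn
      (Sum.elim (psi b) (fun p => psi b p.2 - b p.1)) (fun _ _ => mem_coe.2 (mem_univ _))
    have hE : ∀ (x : α) (f : α →₀ ℕ), f ∈ (univ.erase x).finsuppAntidiag (t + 1) →
        ∑ y, f y = t + 1 ∧ f x = 0 := by
      intro x f hf
      rw [mem_finsuppAntidiag] at hf
      have h0 : f x = 0 := by
        by_contra h
        have := hf.2 (Finsupp.mem_support_iff.2 h)
        simp at this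
      refine ⟨?_, h0⟩
      rw [← hf.1, ← Finset.add_sum_erase univ (fun y => f y) (mem_univ x), h0, zero_add]
    rintro (f | ⟨x, f⟩) hf (g | ⟨y, g⟩) hg h
    · simp only [hP, mem_coe, inl_mem_disjSum] at hf hg
      rw [mem_F] at hf hg
      simp only [Sum.elim_inl] at h
      have hne : Nonempty α := by
        rw [← Fintype.card_pos_iff]; omega
      obtain ⟨z⟩ := hne
      have := key (f + Finsupp.single z 1 + Finsupp.single z 1)
        (g + Finsupp.single z 1 + Finsupp.single z 1)
        (sum_add_single (sum_add_single hf z) z) (sum_add_single (sum_add_single hg z) z)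
        (by rw [psi_add, psi_add, psi_add, psi_add, h])
      rw [add_left_inj, add_left_inj] at this
      rw [this]
    · exfalso
      simp only [hP, mem_coe, inl_mem_disjSum, inr_mem_disjSum, mem_sigma, mem_univ,
        true_and] at hf hg
      rw [mem_F] at hf
      obtain ⟨hg1, hg2⟩ := hE y g hg
      simp only [Sum.elim_inl, Sum.elim_inr] at h
      have := key (f + Finsupp.single y 1 + Finsupp.single y 1) (g + Finsupp.single y 1)
        (sum_add_single (sum_add_single hf y) y) (sum_add_single hg1 y)
        (by rw [psi_add, psi_add, psi_add, psi_single, h]; abel)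
      have h2 := DFunLike.congr_fun this y
      simp only [Finsupp.add_apply, Finsupp.single_eq_same] at h2
      omega
    · exfalso
      simp only [hP, mem_coe, inl_mem_disjSum, inr_mem_disjSum, mem_sigma, mem_univ,
        true_and] at hf hg
      rw [mem_F] at hg
      obtain ⟨hf1, hf2⟩ := hE x f hf
      simp only [Sum.elim_inl, Sum.elim_inr] at h
      have := key (g + Finsupp.single x 1 + Finsupp.single x 1) (f + Finsupp.single x 1)
        (sum_add_single (sum_add_single hg x) x) (sum_add_single hf1 x)
        (by rw [psi_add, psi_add, psi_add, psi_single, ← h]; abel)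
      have h2 := DFunLike.congr_fun this x
      simp only [Finsupp.add_apply, Finsupp.single_eq_same] at h2
      omega
    · simp only [hP, mem_coe, inr_mem_disjSum, mem_sigma, mem_univ, true_and] at hf hg
      obtain ⟨hf1, hf2⟩ := hE x f hf
      obtain ⟨hg1, hg2⟩ := hE y g hg
      simp only [Sum.elim_inr] at h
      have h1 := key (f + Finsupp.single y 1) (g + Finsupp.single x 1)
        (sum_add_single hf1 y) (sum_add_single hg1 x)
        (by rw [psi_add, psi_add, psi_single, psi_single]
            rw [sub_eq_sub_iff_add_eq_add] at h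
            exact h)
      by_cases hxy : x = y
      · subst hxy
        rw [add_left_inj] at h1
        rw [h1]
      · exfalso
        have h2 := DFunLike.congr_fun h1 x
        simp only [Finsupp.add_apply, Finsupp.single_eq_same, hf2] at h2
        rw [Finsupp.single_apply, if_neg (Ne.symm hxy)] at h2
        omega
  have := choose_ineq r t
  omega

end core

/-- **Theorem.** For all integers `s ≥ 2` and `m ≥ 2`, no finite abelian group has a perfect
`s`-basis of size `m`. -/
theorem result : ∀ s m : ℕ, 2 ≤ s → 2 ≤ m →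
    ∀ (G : Type*) [AddCommGroup G] [Finite G] (A : Finset G), A.card = m →
      ¬ IsPerfectBasis s A := by
  classical
  intro s m hs hm G _ _ A hA hP
  obtain ⟨t, rfl⟩ : ∃ t, s = t + 2 := ⟨s - 2, by omega⟩
  obtain ⟨r, rfl⟩ : ∃ r, m = r + 2 := ⟨m - 2, by omega⟩
  obtain ⟨hP1, hP2⟩ := hP
  apply core (α := Option A) (G := G) r t (by simp [hA])
    (fun o => o.elim 0 (fun a => (a : G)))
  · intro g
    have hg : g ∈ bracket (t + 2) A := by rw [hP1]; exact Set.mem_univ g
    obtain ⟨c, hc1, hc2⟩ := hg
    refine ⟨Finsupp.equivFunOnFinite.symm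
      (fun o => o.elim (t + 2 - ∑ a ∈ A, c a) (fun a => c a)), ?_, ?_⟩
    · rw [Fintype.sum_option]
      simp only [Finsupp.equivFunOnFinite_symm_apply_apply, Option.elim]
      rw [Finset.sum_coe_sort A c]
      omega
    · unfold psi
      rw [Fintype.sum_option]
      simp only [Finsupp.equivFunOnFinite_symm_apply_apply, Option.elim, smul_zero, zero_add]
      rw [Finset.sum_coe_sort A (fun a => c a • a)]
      exact hc2
  · rw [hP2, hA]
    congr 1
    ring

end Pool.Agent.Results.MP_acd90d_co.NoPerfectBasis
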