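import Mathlib
import Pool.Agent.N383.BF

set_option autoImplicit false

namespace Pool.Agent.Results.MP_befaea_co.LargestSquare

/-- `Q` is an `m`-dimensional cube of edge `s` in `ℝⁿ`: the image of `[0, s]ᵐ` under a distance
preserving map `ℝᵐ → ℝⁿ`. -/
def IsCube (m n : ℕ) (s : ℝ) (Q : Set (EuclideanSpace ℝ (Fin n))) : Prop :=
  ∃ g : EuclideanSpace ℝ (Fin m) → EuclideanSpace ℝ (Fin n), Isometry g ∧
    Q = g '' {x | ∀ i, 0 ≤ x i ∧ x i ≤ s}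

/-- The unit cube `[0, 1]ⁿ`. -/
def unitCube (n : ℕ) : Set (EuclideanSpace ℝ (Fin n)) := {y | ∀ j, 0 ≤ y j ∧ y j ≤ 1}

/-- The edges `s > 0` of the `m`-dimensional cubes contained in `[0, 1]ⁿ`. -/
def edges (m n : ℕ) : Set ℝ := {s | 0 < s ∧ ∃ Q, IsCube m n s Q ∧ Q ⊆ unitCube n}

/-- For every `n ≥ 1` the largest edge of a square contained in `[0, 1]^(2n+1)` exists and is
`√((8n+1)/8)`. -/
theorem result : ∀ n : ℕ, 1 ≤ n → IsGreatest (edges 2 (2 * n + 1)) (Real.sqrt ((8 * n + 1) / 8)) := by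
  intro n hn
  constructor
  · obtain ⟨g, hg, h⟩ := Pool.Agent.N383.BF.lower n hn
    refine ⟨Real.sqrt_pos.2 (by positivity), _, ⟨g, hg, rfl⟩, ?_⟩
    rintro _ ⟨x, hx, rfl⟩
    exact h x hx
  · rintro s ⟨hs, Q, ⟨g, hg, rfl⟩, hQ⟩
    exact Pool.Agent.N383.BF.upper s hs g hg fun x hx => hQ ⟨x, hx, rfl⟩

end Pool.Agent.Results.MP_befaea_co.LargestSquare
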