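import Pool.Agent.N340.PF.Main

set_option autoImplicit false

/-!
# Pfaffians of Motzkin, Delannoy, Schröder and Narayana sequences: full answer to Q1

The definitions `cat`, `mot`, `del`, `sch`, `nar`, `skewHankel`, `Pf` are in
`Pool.Agent.N340.PF.Defs`.
-/

namespace Pool.Agent.Results.MP_c5a58e_co.FourPfaffians

open Pool.Agent.N340.PF Finset

/-- For every `n ≥ 1` all four identities of the page hold (`skewHankel x s n` is the matrix
`((j - i) x_{i+j-s})_{1 ≤ i, j ≤ 2n}`, the last identity is in the polynomial ring `ℚ[a]`, with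
`a = X`). -/
theorem result (n : ℕ) (hn : 1 ≤ n) :
    Pf n (skewHankel mot 3 n) = ∏ k ∈ range n, (4 * (k : ℚ) + 1) ∧
    Pf n (skewHankel del 3 n) =
      2 ^ (n ^ 2 - 1) * (2 * (n : ℚ) - 1) * ∏ k ∈ Icc 1 (n - 1), (4 * (k : ℚ) - 1) ∧
    Pf n (skewHankel sch 2 n) = 2 ^ n ^ 2 * ∏ k ∈ range n, (4 * (k : ℚ) + 1) ∧
    Pf n (skewHankel nar 2 n) =
      Polynomial.X ^ n ^ 2 * ∏ k ∈ range n, (4 * (k : Polynomial ℚ) + 1) :=
  ⟨motzkin n, delannoy n hn, schroeder n, narayana n⟩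

end Pool.Agent.Results.MP_c5a58e_co.FourPfaffians
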