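import Pool.Agent.N749.Greedy52

/-!
# The greedy set avoiding `5w + 2x = 5y + 2z` (MP_cb51c9_co, Q1)

`G` is the range of the greedy sequence.  With
`a 0 = 0`, `a i = ⌈(5 + 7 (a 0 + ... + a (i-1))) / 2⌉` (so `a 1 = 3`, `a 2 = 13`, `a 3 = 59`)
and `A` the set of all sums of distinct terms, `G = {5x+y : x ∈ A, 0 ≤ y ≤ 4}`.
With the floor in place of the ceiling (as printed in the problem file) the description fails:
`10` would belong to the right hand side, but it is not in `G`.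
-/

namespace Pool.Agent.Results.MP_cb51c9_co.GreedyDescription

open Pool.Agent.N749.G52

/-- `a 0 = 0` and `a i = ⌊(5 + 7 (a 0 + ... + a (i-1))) / 2⌋` for `i ≥ 1`. -/
def IsAFloor (a : ℕ → ℕ) : Prop :=
  a 0 = 0 ∧ ∀ i ≥ 1, a i = ⌊((5 + 7 * ∑ j ∈ Finset.range i, a j : ℕ) : ℚ) / 2⌋₊

/-- `{5x+y : x ∈ A, 0 ≤ y ≤ 4}` where `A` is the set of all sums of distinct terms of `a`. -/
def Blocks (a : ℕ → ℕ) : Set ℕ :=
  {n | ∃ x ∈ {x | ∃ F : Finset ℕ, x = ∑ i ∈ F, a i}, ∃ y ≤ 4, n = 5 * x + y}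

/-- The greedy sequence for `5w+2x=5y+2z` exists, the sequence `a` (with the ceiling) exists, and
the greedy set is `{5x+y : x ∈ A, 0 ≤ y ≤ 4}` with `A` the set of sums of distinct terms `a i`.
For the sequence with the floor, `10` is in `{5x+y : x ∈ A, 0 ≤ y ≤ 4}` but not in `G`. -/
theorem result :
    (∃ g, IsGreedy g) ∧ (∃ a, IsA a) ∧
    (∀ g a : ℕ → ℕ, IsGreedy g → IsA a → Set.range g = Blocks a) ∧
    (∀ g a : ℕ → ℕ, IsGreedy g → IsAFloor a → 10 ∈ Blocks a ∧ 10 ∉ Set.range g) := by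
  refine ⟨exists_greedy, exists_isA, fun g a hg ha => ?_, fun g a hg ha => ⟨?_, ?_⟩⟩
  · rw [range_greedy g hg, Blocks, subset_sums ha]
    ext n
    constructor
    · intro hn
      exact ⟨n / 5, hn, n % 5, by omega, by omega⟩
    · rintro ⟨x, hx, y, hy, rfl⟩
      change (5 * x + y) / 5 ∈ A
      rw [show (5 * x + y) / 5 = x by omega]
      exact hx
  · refine ⟨2, ⟨{1}, ?_⟩, 0, by omega, by omega⟩
    rw [Finset.sum_singleton, ha.2 1 le_rfl]
    symm
    rw [Nat.floor_eq_iff (by positivity)]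
    simp [ha.1]
    norm_num
  · rw [range_greedy g hg]
    rintro ⟨k, hk⟩
    have h2 : (10 / 5 : ℕ) ∈ L 1 := mem_L_of_le hk (by simp [tau])
    rcases h2 with h | ⟨m, hm, e⟩
    · simp [L] at h
    · simp [L] at hm
      subst hm
      simp [b, tau] at e

end Pool.Agent.Results.MP_cb51c9_co.GreedyDescription
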