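import Pool.Statements.S05959
-- import your own Pool.Agent.* helpers here
import Pool.Agent.N292.EF.Fin

set_option autoImplicit false
open Pool Pool.MP_bcf514_an

namespace Pool.Agent.S05959

/-- There is k ≥ 2 such that any entire f, g for which f^(n)/g^(n) is entire and zero-free for all n ≤ k either have f = c·g, or are e^(az+b), e^(cz+d), or are A(e^(az)−b), B(e^(−az)−1/b) with b ≠ 0. -/
theorem result :
    ∃ k : ℕ, 2 ≤ k ∧
      ∀ f g : ℂ → ℂ, Differentiable ℂ f → Differentiable ℂ g →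
        (∀ n : ℕ, n ≤ k →
          (∃ z : ℂ, iteratedDeriv n g z ≠ 0) ∧
          ∃ h : ℂ → ℂ, Differentiable ℂ h ∧ (∀ z : ℂ, h z ≠ 0) ∧
            ∀ z : ℂ, iteratedDeriv n f z = h z * iteratedDeriv n g z) →
        (∃ c : ℂ, ∀ z : ℂ, f z = c * g z) ∨
        (∃ a b c d : ℂ, ∀ z : ℂ,
            f z = Complex.exp (a * z + b) ∧ g z = Complex.exp (c * z + d)) ∨
        (∃ a b A B : ℂ, b ≠ 0 ∧ ∀ z : ℂ,
            f z = A * (Complex.exp (a * z) - b) ∧
            g z = B * (Complex.exp (-(a * z)) - b⁻¹)) := by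
  refine ⟨11, by norm_num, ?_⟩
  intro f g hf hg H
  have hit : ∀ (y : ℂ → ℂ), Differentiable ℂ y → ∀ n, Differentiable ℂ (iteratedDeriv n y) := by
    intro y hy n
    exact (hy.contDiff (n := ⊤)).differentiable_iteratedDeriv n (by exact_mod_cast WithTop.coe_lt_top _)
  have hγex : ∀ n : ℕ, ∃ γ : ℂ → ℂ, Differentiable ℂ γ ∧ (n ≤ 11 → ∀ z, iteratedDeriv n f z =
      Complex.exp (γ z) * iteratedDeriv n g z) := by
    intro n
    by_cases hn : n ≤ 11
    · obtain ⟨_, h, hh, hh0, hfg⟩ := H n hn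
      obtain ⟨γ, hγ, hγe⟩ := Pool.Agent.R876.SV.exists_entire_log hh hh0
      exact ⟨γ, hγ, fun _ z => by rw [hfg z, hγe z]⟩
    · exact ⟨fun _ => 0, differentiable_const _, fun h => absurd h hn⟩
  choose γ hγ hFG using hγex
  have hG0 : ∀ n ≤ 11, ∃ z, iteratedDeriv n g z ≠ 0 := fun n hn => (H n hn).1
  have hd : ∀ (y : ℂ → ℂ) n z, deriv (iteratedDeriv n y) z = iteratedDeriv (n + 1) y z := by
    intro y n z
    rw [iteratedDeriv_succ]
  by_cases hu : ∃ z, deriv (γ 0) z ≠ 0
  swap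
  · left
    push Not at hu
    refine ⟨Complex.exp (γ 0 0), fun z => ?_⟩
    have h1 := hFG 0 (by norm_num) z
    rw [iteratedDeriv_zero, iteratedDeriv_zero] at h1
    rw [h1, is_const_of_deriv_eq_zero (hγ 0) hu z 0]
  right
  have hun : ∀ n ≤ 11, ∃ z, deriv (γ n) z ≠ 0 := by
    intro n
    induction n with
    | zero => intro _; exact hu
    | succ n ih =>
      intro hn
      exact Pool.Agent.N292.EF.unit_succ (hit g hg n) (hit f hf n) (hd g n) (hd f n)
        (hG0 n (by omega)) (hγ n) (hγ (n + 1)) (hFG n (by omega)) (hFG (n + 1) hn) (ih (by omega))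
  have hcon : ∀ n ≤ 9, ∀ z, deriv (γ (n + 2)) z = deriv (γ (n + 1)) z := by
    by_contra hne
    push Not at hne
    obtain ⟨n, hn, z, hz⟩ := hne
    obtain ⟨a1, _⟩ := Pool.Agent.N292.EF.window (N := 9) (G := fun n => iteratedDeriv (n + 1) g)
      (F := fun n => iteratedDeriv (n + 1) f) (γ := fun n => γ (n + 1)) le_rfl
      (fun n => hit g hg _) (fun n => hd g _) (fun n => hit f hf _) (fun n => hd f _)
      (fun n hn => hG0 _ (by omega)) (fun n => hγ _) (fun n hn => hFG _ (by omega))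
      (fun n hn => hun _ (by omega)) ⟨n, hn, z, hz⟩
    obtain ⟨w, hw⟩ := hun 1 (by norm_num)
    obtain ⟨a2, b2⟩ := Pool.Agent.N292.EF.window (N := 9) (G := fun n => iteratedDeriv n g)
      (F := fun n => iteratedDeriv n f) (γ := γ) le_rfl
      (fun n => hit g hg _) (fun n => hd g _) (fun n => hit f hf _) (fun n => hd f _)
      (fun n hn => hG0 _ (by omega)) (fun n => hγ _) (fun n hn => hFG _ (by omega))
      (fun n hn => hun _ (by omega)) ⟨1, by norm_num, w, fun h => hw (by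
        have h3 := a1 w
        simp only [zero_add] at h3
        have h4 : deriv (γ (1 + 1)) w = 2 * deriv (γ 1) w := h3
        rw [h] at h4
        linear_combination -h4)⟩
    obtain ⟨v, hv⟩ := b2
    apply hv
    have h3 := a1 v
    simp only [zero_add] at h3
    have h4 : deriv (γ 2) v = 2 * deriv (γ 1) v := h3
    have h5 := a2 v
    linear_combination h4 - h5
  refine Pool.Agent.N292.EF.const_case (f := f) (g := g) (G₁ := iteratedDeriv 1 g)
    (G₂ := iteratedDeriv 2 g) (G₃ := iteratedDeriv 3 g) (F₁ := iteratedDeriv 1 f)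
    (F₂ := iteratedDeriv 2 f) (F₃ := iteratedDeriv 3 f) (γ₀ := γ 0) (γ₁ := γ 1) (γ₂ := γ 2)
    (γ₃ := γ 3) hf hg (hit g hg 1) (hit g hg 2) (fun z => ?_) (hd g 1)
    (hd g 2) (fun z => ?_) (hd f 1) (hd f 2) (hG0 1 (by norm_num)) (hG0 2 (by norm_num)) (hγ 1)
    (hγ 2) (hγ 3) (fun z => ?_) (hFG 1 (by norm_num)) (hFG 2 (by norm_num)) (hFG 3 (by norm_num))
    (hun 1 (by norm_num)) (hcon 0 (by norm_num)) (hcon 1 (by norm_num))
  · rw [iteratedDeriv_one]
  · rw [iteratedDeriv_one]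
  · have := hFG 0 (by norm_num) z
    rwa [iteratedDeriv_zero, iteratedDeriv_zero] at this

end Pool.Agent.S05959
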